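import Pool.Agent.TH125.Mtg.Main

/-!
# The motivic Mumford–Tate conjecture and endomorphisms

Let `k` be a finitely generated field of characteristic zero, `Γ` its Galois group, `ℓ` a prime, `K`
an algebraic closure of `ℚ_ℓ`.  Let `M` be a motive over `k`, pure of odd weight `n`, with a
polarization, and `V = K ⊗ ω(M)` its étale realization with the alternating form `B` given by the
polarization.  Let `N` be any motive which contains `ℚ(-n)` as a direct summand, `E = K ⊗ ω(N)` and
`e` a generator of the corresponding line in `E`.  All elements of `Γ`, of the motivic Galois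
group and of the Mumford-Tate group of `M ⊕ N` act on `V` by similitudes of `B` and multiply `e` by the
multiplier (`IsSim`).

Assume that `V` is spanned by vanishing classes: vectors `d` such that some element `g` of `Γ` acts on
`V` by `v ↦ v + c B(d, v) d` with `c ≠ 0` and trivially on `E`.  In the applications `M` is the
primitive cohomology in degree `n` of a smooth projective variety `X` of odd dimension `n`, `g` is in
the inertia group of a place at which `X` has a reduction with one ordinary double point and `N` has
good reduction, `d` is the vanishing cycle (Picard-Lefschetz formula).  For instance this holds if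
`V` is irreducible and there is one such place.

Let `𝒢` be the set of the `K`-valued points of the Mumford-Tate group `G_σ(M ⊕ N)`.  The theorem says
that `𝒢` is contained in the Zariski closure of the image of `Δ` for all open subgroups `Δ` of `Γ`,
i.e. `G_σ(M ⊕ N) ⊆ G_ℓ(M ⊕ N)°`, if and only if `G_σ(N) ⊆ G_ℓ(N)°` and all endomorphisms of `V` which
commute with an open subgroup of `Γ` commute with `𝒢` (the Tate classes in `M ⊗ M^∨` are
combinations of Hodge classes).  For motives for absolute Hodge cycles the opposite inclusions hold
(`G_σ = 𝒢_k°`), so this is the statement that Q1 holds for `M ⊕ N` if and only if it holds for `N`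
and for the endomorphisms of `M`.  The same theorem holds with the motivic Galois group in place of
the Mumford-Tate group.

The proof: the vectors `d` for which all `v ↦ v + t B(d, v) d` are in the closure form a closed subset
of `V`; if it contains `u` and `w` with `B(u, w) ≠ 0` it contains `u + s w`.  Hence it contains the
blocks of `V`: the subspaces spanned by the vanishing classes which are connected by chains of non
orthogonal vanishing classes.  So the closure contains the product of the symplectic groups of the
blocks (which is generated by transvections) with the identity on `E`. The projections to the blocks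
commute with an open subgroup of `Γ`, hence with `𝒢`. So an element `(x, y)` of `𝒢` is
`(l s, y)` where `l ^ 2` is the multiplier and `s` is in the product of the symplectic groups, and
a polynomial in `(l s, y)` is `P(l², y) + l Q(l², y)`, where both parts vanish on the image of `Γ`.
-/

namespace Pool.Agent.Results.MP_de8692_ag.EndomorphismsSuffice

open Module Pool.Agent.TH125.Mtg

/-- **Theorem.** -/
theorem result {K : Type} [Field K] [CharZero K] [IsAlgClosed K]
    {V E : Type} [AddCommGroup V] [Module K V] [AddCommGroup E] [Module K E]
    {ι κ : Type} [Fintype ι] [Fintype κ] (bV : Basis ι K V) (bE : Basis κ K E)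
    {Γ : Type} [Group Γ] (ρ : Representation K Γ V) (σ : Representation K Γ E)
    (B : V →ₗ[K] V →ₗ[K] K) (halt : ∀ v, B v v = 0) (hnondeg : ∀ u, (∀ v, B u v = 0) → u = 0)
    (e : E) (he : e ≠ 0) (hΓ : ∀ g, IsSim B e (ρ g, σ g))
    (𝒢 : Set (End K V × End K E)) (h𝒢 : ∀ p ∈ 𝒢, IsSim B e p)
    (hspan : Submodule.span K (vanishingClasses B ρ σ) = ⊤) :
    (∀ Δ : Subgroup Γ, Δ.FiniteIndex →
        onSum 𝒢 ⊆ zariskiClosure (bV.prod bE) (onSum (images ρ σ Δ))) ↔
      (∀ Δ : Subgroup Γ, Δ.FiniteIndex → Prod.snd '' 𝒢 ⊆ zariskiClosure bE (σ '' Δ)) ∧
      ∀ f : End K V, (∃ Δ : Subgroup Γ, Δ.FiniteIndex ∧ ∀ g ∈ Δ, f * ρ g = ρ g * f) →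
        ∀ p ∈ 𝒢, f * p.1 = p.1 * f := by
  have := Module.Finite.of_basis bV
  constructor
  · intro h
    refine ⟨fun Δ hΔ => back_snd bV bE (h Δ hΔ), ?_⟩
    rintro f ⟨Δ, hΔ, hf⟩
    exact back_end bV bE (h Δ hΔ) hf
  · rintro ⟨h1, h2⟩ Δ hΔ
    exact forward bV bE halt hnondeg he hΓ h𝒢 hspan h1 h2 Δ hΔ

end Pool.Agent.Results.MP_de8692_ag.EndomorphismsSuffice
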