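import Mathlib
import Pool.Agent.TH118.OR.Sum

/-!
# Sums of a motive of even weight with a cusp and of any other motive

Let `k` be a finitely generated field of characteristic zero, `P` a motive over `k` (for motivated or for
absolute Hodge cycles), pure of even weight, with a polarization; twisting `P` we assume that the weight
is zero, so that the polarization is a symmetric form `ψ` on `ω(P)` with values in the unit motive.
Let `Q` be any motive over `k` (which need not be pure).  Let `K` be the algebraic closure of `ℚ_ℓ`, `M` and
`N` the étale realizations of `P` and of `Q`, tensored with `K`, with the actions `R` and `S` of the Galois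
group `Γ` of `k`, and `ω` the form on `M` given by `ψ`, a `Γ`-invariant form.

The determinant of `P` is an Artin motive of rank one.  We assume that it is trivial, or a direct
summand of `Q` (replace `Q` by `Q ⊕ det P`), so that `det R(g) = c(S(g))`, with a polynomial `c`, which is
constant, or a matrix entry.  Let `𝒢` be the set of the `K`-valued points of the motivic Galois group
`𝒢_k(P ⊕ Q)`, as pairs of operators on `M` and `N`.  It contains the image of `Γ`, its projection to `GL(N)`
is contained in the motivic Galois group of `Q`, and its elements `(x, y)` satisfy
`ω(x u, x v) = ω(u, v)` and `det x = c(y)`.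

Suppose that

* `M` is irreducible for all subgroups of finite index of `Γ`;
* there is an element `γ` of `Γ` (in applications: of an inertia group at a place where `Q` has good
  reduction), acting trivially on `N`, and on `M` in one of two ways:
  (`BlockThreeAt`) as a unipotent map with one Jordan block of size three and all others of
  size one; or
  (`TwoSimpleAt`) with finite order, with an eigenspace of codimension two for an eigenvalue `a`,
  `a ^ 2 = 1`, and with two other, different eigenvalues `α` and `β`, `α β = 1`; here we suppose that the
  dimension of `M` is at least five and that some element of `Γ` has two eigenvalues on `M` whose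
  quotient is not a root of unity;
* (`h2`) the motivic Tate statement for `Q`: its motivic Galois group is contained in the
  Zariski closure of the image of `Γ` (or of the subgroup `Δ` of finite index).

Theorem.  The motivic Tate statement `G_{ℓ,k} = 𝒢_k` holds for `P ⊕ Q`: the image of `Δ` is Zariski dense
in `𝒢`.  Both groups are the fibre product of `O(ω(P), ψ)` and the motivic Galois group of `Q` over
`{1, -1}`, or the product of `SO(ω(P), ψ)` and the motivic Galois group of `Q` if the
determinant of `P` is trivial.

So for motives for absolute Hodge cycles the motivic Mumford-Tate conjecture Q1 holds for `P ⊕ Q` and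
all motives in the tannakian category generated by `P ⊕ Q`, if the motivic Tate statement
holds for `Q`: for instance if `Q` is a Tate motive, the motive of a K3 surface or of an abelian variety for
which the conjecture is known, or (iterating the theorem) a sum of motives like `P`, each
with its own place where the following ones have good reduction.

For motives of abelian type such a statement for sums is a theorem of Commelin, once the
conjecture is known for the two summands; nothing of this sort is known for
motives like the transcendental part of `H^2` of a surface of general type, which can be taken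
as `P` here.

Example.  Let `Y` be a smooth projective surface over a number field, `P` the orthogonal complement of
the classes of curves in `H^2(Y)(1)`, of any geometric genus, and let `v` be a place at which `Y`
has a regular model whose special fibre has exactly one singular point, given by
`x ^ 3 + y ^ 2 + z ^ 2 = t` in the completion, `t` a uniformizer, and residue characteristic at least
five; or a model whose special fibre has only one singular point, a cusp
`x y z + x ^ p + y ^ q + z ^ r = t`, `1 / p + 1 / q + 1 / r < 1`, with large residue characteristic.  Let
`Q` be the motive of any variety with good reduction at `v` for which the motivic Tate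
statement holds.  Then it holds for `P ⊕ Q` if `M` is strongly irreducible.
-/

namespace Pool.Agent.Results.MP_de8692_ag.EvenWeightSums

open Module Pool.Agent.W522.U Pool.Agent.TH118.ZC Pool.Agent.TH118.OR

/-- **The closures of the image and of the motivic Galois group of the sum.** -/
theorem result {K : Type} [Field K] [CharZero K] [IsAlgClosed K]
    {M : Type} [AddCommGroup M] [Module K M] [FiniteDimensional K M]
    {N : Type} [AddCommGroup N] [Module K N] [FiniteDimensional K N]
    {Γ : Type} [Group Γ] (R : Representation K Γ M) (S : Representation K Γ N)
    (ω : M →ₗ[K] M →ₗ[K] K) (hsymm : ∀ u v, ω u v = ω v u)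
    (hnondeg : ∀ u, (∀ v, ω u v = 0) → u = 0)
    (hω : ∀ g u v, ω (R g u) (R g v) = ω u v) (hirr : SI R (⊤ : Submodule K M))
    (hin : ∃ γ : Γ, S γ = 1 ∧ (BlockThreeAt R 1 γ ∨
      (TwoSimpleAt R 1 γ ∧ 5 ≤ finrank K M ∧ HasHyperbolic R)))
    {ι κ : Type} [Fintype ι] [Fintype κ] (b : Basis ι K (M × N)) (bN : Basis κ K N)
    (Δ : Subgroup Γ) (hΔ : Δ.FiniteIndex)
    -- the determinant as a polynomial on the second factor
    (c : MvPolynomial (κ × κ) K) (hc : ∀ g ∈ Δ, ev bN c (S g) = LinearMap.det (R g))
    -- the motivic Galois group
    (𝒢 : Set (End K M × End K N)) (h1 : ∀ g ∈ Δ, (R g, S g) ∈ 𝒢)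
    (h2 : ∀ x ∈ 𝒢, x.2 ∈ zariskiClosure bN (S '' Δ) ∧ (∀ u v, ω (x.1 u) (x.1 v) = ω u v) ∧
      LinearMap.det x.1 = ev bN c x.2) :
    zariskiClosure b ((fun g => (R g).prodMap (S g)) '' Δ) =
        zariskiClosure b ((fun x => x.1.prodMap x.2) '' 𝒢) ∧
      ∀ (x : End K M) (y : End K N), y ∈ zariskiClosure bN (S '' Δ) →
        (∀ u v, ω (x u) (x v) = ω u v) → LinearMap.det x = ev bN c y →
        x.prodMap y ∈ zariskiClosure b ((fun g => (R g).prodMap (S g)) '' Δ) := by
  have hω' : ∀ g u v, ω (R g u) (R g v) = (1 : Γ →* K) g * ω u v := by
    intro g u v
    rw [hω, MonoidHom.one_apply, one_mul]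
  have hall : ∀ (D : ℕ) (x y : M), Pool.Agent.TH125.Gal.wg ω x y ∈ LM R S ω b D := by
    intro D x y
    obtain ⟨γ, hS, h | ⟨h, h5, hF⟩⟩ := hin
    · exact sum_three b hsymm hnondeg hω' hirr hS h D x y
    · exact sum_two b hsymm hnondeg hω' hirr h5 hS h hF D x y
  have hso : ∀ s : End K M, (∀ x y, ω (s x) (s y) = ω x y) → LinearMap.det s = 1 →
      s.prodMap (1 : End K N) ∈ clM b (dsum R S) Δ :=
    fun s hs hdet => so_sum b hsymm hnondeg hall hΔ hs hdet
  exact ⟨so_closure b hsymm hnondeg hω hso bN c hc h1 h2,
    fun x y hy hx hxy => so_fib b hsymm hnondeg hω hso bN c hc hy hx hxy⟩

end Pool.Agent.Results.MP_de8692_ag.EvenWeightSums
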