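import Mathlib
import Pool.Agent.TH118.ZC.Fib

/-!
# Sums of a motive of odd weight with small finite inertia and of any other motive

Let `k` be a finitely generated field of characteristic zero, `P` a motive over `k`, pure of odd weight
`n`, with a polarization `ψ`, an alternating form on `ω(P)`, and `Q` any motive over `k` (for motivated
cycles or for absolute Hodge cycles).  Let `K` be the algebraic closure of `ℚ_ℓ`, `M` and `N` the étale
realizations of `P` and of `Q ⊕ 𝟙(n)` tensored with `K`, with the actions `R` and `S` of the Galois group
`Γ` of `k`, `χ` the character of `Γ` on `𝟙(-n)` or rather the one with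
`ω(g u, g v) = χ(g) ω(u, v)`, where `ω` is the form on `M` given by `ψ`.  It is a polynomial in the
entries of `S` (in fact `χ` or its inverse is an entry of `S`; add the dual of `𝟙(n)` to `Q` if necessary).
Let `𝒢` be the set of the `K`-valued points of the motivic Galois group `𝒢_k(P ⊕ Q ⊕ 𝟙(n))`, as
pairs of operators on `M` and `N`.  It contains the image of `Γ`, its projection to `GL(N)` is
contained in the motivic Galois group of `Q ⊕ 𝟙(n)`, and its elements respect `ω` up to the multiplier.

Suppose that

* `M` is irreducible for all subgroups of finite index of `Γ`;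
* there is an element `γ` of `Γ` (in applications: of an inertia group at a place where `Q` has good
  reduction), acting trivially on `N` and with finite order on `M`, in one of two ways:
  (`SmallAt`) it has an eigenvalue `a` with `a ^ 2 = χ(γ)` and another eigenvalue, all
  eigenvalues different from `a` are simple, and `c ^ 2 < 2 d`, where `d` is the dimension of the
  eigenspace for `a` and `c` is its codimension; or
  (`SplitsIsolated`) the eigenvalues are divided into two nonempty sets, both stable under
  `α ↦ χ(γ) / α`, such that for `α` in the first and `β` in the second one `α` or `β` is simple,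
  `β / α` is the quotient of no other pair of eigenvalues except the dual pair, and triples
  `α', α' (β / α), α' (β / α) ^ 2` of eigenvalues are self-dual with simple outer eigenvalues;
* some element of `Γ` has two eigenvalues on `M` whose quotient is not a root of unity;
* (`h2`) the motivic Tate statement for `Q ⊕ 𝟙(n)`: its motivic Galois group is contained in the
  Zariski closure of the image of `Γ` (or of the subgroup `Δ` of finite index).

Theorem.  The motivic Tate statement `G_{ℓ,k} = 𝒢_k` holds for `P ⊕ Q ⊕ 𝟙(n)`: the image of `Δ` is
Zariski dense in `𝒢`.  Both groups are the fibre product of `GSp(ω(P), ψ)` and the motivic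
Galois group of `Q ⊕ 𝟙(n)` over the multiplier.

So for motives for absolute Hodge cycles the motivic Mumford-Tate conjecture Q1 holds for `P ⊕ Q` and
all motives in the tannakian category generated by `P ⊕ Q ⊕ 𝟙(n)`, if the motivic Tate statement
(for `k` and its finite extensions) holds for `Q ⊕ 𝟙(n)`: for instance if `Q` is zero, or the motive of a K3
surface, of an abelian variety for which the conjecture is known, or (iterating the theorem)
a sum of motives like `P`, of various odd weights, each with its own place where the
following ones have good reduction.

For motives of abelian type such a statement for sums is a theorem of Commelin, once the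
conjecture is known for the two summands; nothing of this sort is known for
motives like `H^3` of a threefold, which can be taken as `P` here.

Example.  Let `Y` be a smooth hypersurface or complete intersection of odd dimension `n` over a number
field, `P` its primitive cohomology in degree `n`, and let `v` be a place at which `Y` has a regular model
whose special fibre has exactly one singular point, of type `A_{2m}`, `E_6` or `E_8` (of residue
characteristic prime to the order of the monodromy), `M` strongly irreducible, of dimension greater
than `μ + μ ^ 2 / 2`, `μ` the Milnor number; `Q` the motive of any variety with good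
reduction at `v` for which the motivic Tate statement holds.
-/

namespace Pool.Agent.Results.MP_de8692_ag.OddWeightSums

open Module Pool.Agent.W522.U Pool.Agent.TH118.ZC

theorem result {K : Type} [Field K] [CharZero K] [IsAlgClosed K]
    {M : Type} [AddCommGroup M] [Module K M] [FiniteDimensional K M]
    {N : Type} [AddCommGroup N] [Module K N] [FiniteDimensional K N]
    {Γ : Type} [Group Γ] (R : Representation K Γ M) (S : Representation K Γ N) (χ : Γ →* K)
    (ω : M →ₗ[K] M →ₗ[K] K) (halt : ∀ v, ω v v = 0) (hnondeg : ∀ u, (∀ v, ω u v = 0) → u = 0)
    (hω : ∀ g u v, ω (R g u) (R g v) = χ g * ω u v) (hirr : SI R (⊤ : Submodule K M))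
    (hin : ∃ γ : Γ, (∃ k : ℕ, 0 < k ∧ R γ ^ k = 1) ∧ S γ = 1 ∧
      (SmallAt R χ γ ∨ SplitsIsolated R χ γ))
    (hhyp : HasHyperbolic R)
    {ι κ : Type} [Fintype ι] [Fintype κ] (b : Basis ι K (M × N)) (bN : Basis κ K N)
    (Δ : Subgroup Γ) (hΔ : Δ.FiniteIndex)
    -- the multiplier as a polynomial on the second factor
    (c : MvPolynomial (κ × κ) K) (hc : ∀ g ∈ Δ, ev bN c (S g) = χ g)
    -- the motivic Galois group
    (𝒢 : Set (End K M × End K N)) (h1 : ∀ g ∈ Δ, (R g, S g) ∈ 𝒢)
    (h2 : ∀ x ∈ 𝒢, x.2 ∈ zariskiClosure bN (S '' Δ) ∧ ev bN c x.2 ≠ 0 ∧
      ∀ u v, ω (x.1 u) (x.1 v) = ev bN c x.2 * ω u v) :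
    zariskiClosure b ((fun g => (R g).prodMap (S g)) '' Δ) =
        zariskiClosure b ((fun x => x.1.prodMap x.2) '' 𝒢) ∧
      ∀ (x : End K M) (y : End K N), y ∈ zariskiClosure bN (S '' Δ) → ev bN c y ≠ 0 →
        (∀ u v, ω (x u) (x v) = ev bN c y * ω u v) →
        x.prodMap y ∈ zariskiClosure b ((fun g => (R g).prodMap (S g)) '' Δ) :=
  ⟨fib_closure b halt hnondeg hω hirr hin hhyp hΔ bN c hc h1 h2,
    fun _ _ hy hy0 hx => fib_mem b halt hnondeg hω hirr hin hhyp hΔ bN c hc hy hy0 hx⟩

end Pool.Agent.Results.MP_de8692_ag.OddWeightSums
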